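import Pool.Agent.LE.StmtsQE
import Pool.Agent.Helper76_LQD.RAL
import Pool.Agent.Helper61_BED.Cov
import Pool.Agent.Helper54_LIR.FTB
import Pool.Agent.Helper65_LQD.STE

/-!
# LQD, row MEA: the mean of the resolvent
-/

set_option autoImplicit false

open MeasureTheory ProbabilityTheory Function Filter

open scoped ENNReal BigOperators Topology NNReal ComplexOrder Matrix

noncomputable section

namespace Pool.Agent.LE.QD.H31

open Pool.Agent.Anderson hiding box mem_box card_box
open Pool.Agent.Loc Pool.Agent.Mob Pool.Agent.Helper54.Bal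
  Pool.Agent.Helper96.EXP Pool.Agent.BED
open Pool.Agent.LE.MN Pool.Agent.LE.CL Pool.Agent.LE.IR
open Pool.Agent.LE.IR.H54 (ec_norm ec_add ec_comm ec_add_left ec_zero ec_neg ec_neg_left ec_sub ftb)

variable {d M : ℕ} [NeZero M]

theorem entry (V : Tor d M → ℝ) {z : ℂ} (hz0 : 0 < z.im) (x y : Tor d M) :
    (V x : ℂ) * rs V z x y =
      (if x = y then 1 else 0) - (∑ w, ((adj d M x w : ℝ) : ℂ) * rs V z w y) + z * rs V z x y := by
  have h1 := congrFun (congrFun (H76.mul_rs V hz0.ne') x) y
  rw [Matrix.one_apply, Matrix.mul_apply] at h1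
  have h2 : ∀ w, hz V z x w * rs V z w y =
      ((adj d M x w : ℝ) : ℂ) * rs V z w y +
        (if x = w then ((V x : ℂ) - z) * rs V z w y else 0) := by
    intro w
    unfold hz
    rw [Matrix.add_apply, Matrix.map_apply, Matrix.diagonal_apply, add_mul]
    congr 1
    by_cases h : x = w
    · rw [if_pos h, if_pos h]
    · rw [if_neg h, if_neg h, zero_mul]
  simp only [h2, Finset.sum_add_distrib, Finset.sum_ite_eq, Finset.mem_univ, if_true] at h1
  rw [← h1]
  ring

theorem prob (v : ℝ≥0) : IsProbabilityMeasure (gau d M v) := by unfold gau; infer_instance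

theorem inte (v : ℝ≥0) {z : ℂ} (hz0 : 0 < z.im) (x y : Tor d M) :
    Integrable (fun V : Tor d M → ℝ => rs V z x y) (gau d M v) := by
  have := prob (d := d) (M := M) v
  refine (integrable_const (1 / z.im)).mono' (H76.cont z hz0.ne' x y).aestronglyMeasurable ?_
  exact Eventually.of_forall fun V => H76.entry_bd V hz0 x y

theorem inte2 (v : ℝ≥0) {z : ℂ} (hz0 : 0 < z.im) (a b x y : Tor d M) :
    Integrable (fun V : Tor d M → ℝ => rs V z a b * rs V z x y) (gau d M v) := by
  have := prob (d := d) (M := M) v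
  refine (integrable_const ((1 / z.im) * (1 / z.im))).mono'
    ((H76.cont z hz0.ne' a b).mul (H76.cont z hz0.ne' x y)).aestronglyMeasurable ?_
  refine Eventually.of_forall fun V => ?_
  rw [norm_mul]
  exact mul_le_mul (H76.entry_bd V hz0 a b) (H76.entry_bd V hz0 x y) (norm_nonneg _)
    (by positivity)

/-- translation invariance of the measure, for continuous functions -/
theorem inv_tr {E : Type*} [NormedAddCommGroup E] [NormedSpace ℝ E] (v : ℝ≥0) (a : Tor d M)
    (F : (Tor d M → ℝ) → E) (hF : AEStronglyMeasurable F (gau d M v)) :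
    ∫ V, F (tr a V) ∂(gau d M v) = ∫ V, F V ∂(gau d M v) := by
  have hmp : MeasurePreserving (tr a) (gau d M v) (gau d M v) :=
    (Pool.Agent.BED.H61.cov d M 0 0 a).2.2.2.2.2 v
  have h := integral_map (μ := gau d M v) (φ := tr a) hmp.measurable.aemeasurable
    (f := F) (by rw [hmp.map_eq]; exact hF)
  rw [hmp.map_eq] at h
  exact h.symm

/-- the mean of the resolvent depends on the difference -/
theorem mean_tr (v : ℝ≥0) {z : ℂ} (hz0 : 0 < z.im) (a x y : Tor d M) :
    ∫ V, rs V z (a + x) (a + y) ∂(gau d M v) = ∫ V, rs V z x y ∂(gau d M v) := by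
  rw [← inv_tr v a (fun V => rs V z x y) (inte v hz0 x y).aestronglyMeasurable]
  refine integral_congr_ae (Eventually.of_forall fun V => ?_)
  exact (H76.transl V z a x y).symm

/-- the equation for the mean -/
theorem mean_eq (ste : SteStmt) (v : ℝ≥0) {z : ℂ} (hz0 : 0 < z.im) (x y : Tor d M) :
    (∑ w, ((adj d M x w : ℝ) : ℂ) * ∫ V, rs V z w y ∂(gau d M v)) -
      z * ∫ V, rs V z x y ∂(gau d M v) =
      (if x = y then 1 else 0) + v * ∫ V, rs V z x x * rs V z x y ∂(gau d M v) := by
  have := prob (d := d) (M := M) v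
  have hη : 0 < z.im := hz0
  have h1 := ste (Tor d M) v x (fun V => rs V z x y) (fun V => -(rs V z x x * rs V z x y))
    (1 / z.im + 1 / z.im * (1 / z.im)) (H76.cont z hz0.ne' x y)
    ((H76.cont z hz0.ne' x x).mul (H76.cont z hz0.ne' x y)).neg
    (fun V => (H76.entry_bd V hz0 x y).trans (by
      have : 0 ≤ 1 / z.im * (1 / z.im) := by positivity
      linarith))
    (fun V => by
      rw [norm_neg, norm_mul]
      have h2 := mul_le_mul (H76.entry_bd V hz0 x x) (H76.entry_bd V hz0 x y) (norm_nonneg _)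
        (by positivity)
      have : 0 ≤ 1 / z.im := by positivity
      linarith)
    (fun V => H76.der V hz0.ne' x x y)
  have h2 : ∫ V, (V x : ℂ) * rs V z x y ∂(gau d M v) =
      (if x = y then 1 else 0) - (∑ w, ((adj d M x w : ℝ) : ℂ) * ∫ V, rs V z w y ∂(gau d M v)) +
        z * ∫ V, rs V z x y ∂(gau d M v) := by
    have e : (fun V : Tor d M → ℝ => (V x : ℂ) * rs V z x y) = fun V =>
        (if x = y then 1 else 0) - (∑ w, ((adj d M x w : ℝ) : ℂ) * rs V z w y) +
          z * rs V z x y := by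
      funext V
      exact entry V hz0 x y
    rw [e]
    have i1 : Integrable (fun V : Tor d M → ℝ => ∑ w, ((adj d M x w : ℝ) : ℂ) * rs V z w y)
        (gau d M v) := integrable_finsetSum _ fun w _ => (inte v hz0 w y).const_mul _
    have i2 : Integrable (fun V : Tor d M → ℝ => z * rs V z x y) (gau d M v) :=
      (inte v hz0 x y).const_mul _
    have i3 : Integrable (fun V : Tor d M → ℝ => (if x = y then (1 : ℂ) else 0) -
        ∑ w, ((adj d M x w : ℝ) : ℂ) * rs V z w y) (gau d M v) := (integrable_const _).sub i1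
    rw [integral_add i3 i2, integral_sub (integrable_const _) i1,
      integral_const, integral_finsetSum _ (fun w _ => (inte v hz0 w y).const_mul _),
      integral_const_mul]
    simp only [integral_const_mul, probReal_univ, one_smul]
  have h3 : ∫ V, (V x : ℂ) * rs V z x y ∂(gau d M v) =
      v * ∫ V, -(rs V z x x * rs V z x y) ∂(gau d M v) := h1
  rw [h2, integral_neg] at h3
  linear_combination -h3

/-- the value of the resolvent at the exponential -/
def ge (V : Tor d M → ℝ) (z : ℂ) (p x : Tor d M) : ℂ := ∑ y, rs V z x y * ec p y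

theorem ge_tr (V : Tor d M → ℝ) (z : ℂ) (p a : Tor d M) :
    ge (tr a V) z p 0 = (starRingEnd ℂ) (ec p a) * ge V z p a := by
  unfold ge
  rw [Finset.mul_sum, ← Equiv.sum_comp (Equiv.addLeft a)
    (fun y => (starRingEnd ℂ) (ec p a) * (rs V z a y * ec p y))]
  refine Finset.sum_congr rfl fun y _ => ?_
  rw [H76.transl, add_zero, Equiv.coe_addLeft, ec_add]
  have h : (starRingEnd ℂ) (ec p a) * ec p a = 1 := by
    rw [mul_comm, Complex.mul_conj, Complex.normSq_eq_norm_sq, ec_norm]
    norm_num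
  linear_combination -(rs V z a (a + y) * ec p y) * h

theorem ge_norm (V : Tor d M → ℝ) (z : ℂ) (p a : Tor d M) :
    ‖ge (tr a V) z p 0‖ = ‖ge V z p a‖ := by
  rw [ge_tr, norm_mul, RCLike.norm_conj, ec_norm, one_mul]

theorem ge_cont {z : ℂ} (hz0 : 0 < z.im) (p x : Tor d M) :
    Continuous fun V : Tor d M → ℝ => ge V z p x :=
  continuous_finsetSum _ fun y _ => (H76.cont z hz0.ne' x y).mul continuous_const

theorem ge_bd (V : Tor d M → ℝ) {z : ℂ} (hz0 : 0 < z.im) (p x : Tor d M) :
    ‖ge V z p x‖ ≤ (M : ℝ) ^ d * (1 / z.im) := by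
  unfold ge
  refine (norm_sum_le _ _).trans ?_
  have : ∀ y ∈ (Finset.univ : Finset (Tor d M)), ‖rs V z x y * ec p y‖ ≤ 1 / z.im := by
    intro y _
    rw [norm_mul, ec_norm, mul_one]
    exact H76.entry_bd V hz0 x y
  refine (Finset.sum_le_card_nsmul _ _ _ this).trans (le_of_eq ?_)
  rw [nsmul_eq_mul, Finset.card_univ, Fintype.card_fun, ZMod.card, Fintype.card_fin]
  push_cast
  ring

theorem ge_sq_int (v : ℝ≥0) {z : ℂ} (hz0 : 0 < z.im) (p x : Tor d M) :
    Integrable (fun V : Tor d M → ℝ => ‖ge V z p x‖ ^ 2) (gau d M v) := by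
  have := prob (d := d) (M := M) v
  refine (integrable_const (((M : ℝ) ^ d * (1 / z.im)) ^ 2)).mono'
    ((ge_cont hz0 p x).norm.pow 2).aestronglyMeasurable ?_
  refine Eventually.of_forall fun V => ?_
  rw [norm_pow, norm_norm]
  exact pow_le_pow_left₀ (norm_nonneg _) (ge_bd V hz0 p x) 2

theorem ge_mean (v : ℝ≥0) {z : ℂ} (hz0 : 0 < z.im) (p : Tor d M) :
    ∫ V, ‖ge V z p 0‖ ^ 2 ∂(gau d M v) ≤ 1 / z.im ^ 2 := by
  have := prob (d := d) (M := M) v
  have hM : (0 : ℝ) < (M : ℝ) ^ d := pow_pos (Nat.cast_pos.2 (NeZero.pos M)) d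
  have h1 : ∀ x : Tor d M, ∫ V, ‖ge V z p x‖ ^ 2 ∂(gau d M v) =
      ∫ V, ‖ge V z p 0‖ ^ 2 ∂(gau d M v) := by
    intro x
    rw [← inv_tr v x (fun V => ‖ge V z p 0‖ ^ 2) (ge_sq_int v hz0 p 0).aestronglyMeasurable]
    refine integral_congr_ae (Eventually.of_forall fun V => ?_)
    simp only [ge_norm]
  have hcard : ((Finset.univ : Finset (Tor d M)).card : ℝ) = (M : ℝ) ^ d := by
    rw [Finset.card_univ, Fintype.card_fun, ZMod.card, Fintype.card_fin]
    push_cast
    rfl
  have h2 : (M : ℝ) ^ d * ∫ V, ‖ge V z p 0‖ ^ 2 ∂(gau d M v) =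
      ∫ V, ∑ x, ‖ge V z p x‖ ^ 2 ∂(gau d M v) := by
    rw [integral_finsetSum _ fun x _ => ge_sq_int v hz0 p x]
    simp only [h1]
    rw [Finset.sum_const, nsmul_eq_mul, hcard]
  have h3 : ∀ V : Tor d M → ℝ, ∑ x, ‖ge V z p x‖ ^ 2 ≤ (M : ℝ) ^ d / z.im ^ 2 := by
    intro V
    have h4 := H76.rs_bd V hz0.ne' (fun y => ec p y)
    have h5 : n2 (fun y : Tor d M => ec p y) = (M : ℝ) ^ d := by
      unfold n2
      simp only [ec_norm, one_pow]
      rw [Finset.sum_const, nsmul_eq_mul, hcard, mul_one]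
    rw [h5] at h4
    exact h4
  have h4 : ∫ V, ∑ x, ‖ge V z p x‖ ^ 2 ∂(gau d M v) ≤ (M : ℝ) ^ d / z.im ^ 2 := by
    have h5 := integral_mono (integrable_finsetSum _ fun x _ => ge_sq_int v hz0 p x)
      (integrable_const ((M : ℝ) ^ d / z.im ^ 2)) h3 (μ := gau d M v)
    rw [integral_const, probReal_univ, one_smul] at h5
    exact h5
  rw [← h2] at h4
  have h5 : (M : ℝ) ^ d / z.im ^ 2 = (M : ℝ) ^ d * (1 / z.im ^ 2) := by ring
  rw [h5] at h4
  exact le_of_mul_le_mul_left h4 hM

/-- Cauchy-Schwarz -/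
theorem cs {Ω : Type*} [MeasurableSpace Ω] (μ : Measure Ω) (a b : Ω → ℝ) (A B : ℝ)
    (ha : Integrable (fun x => a x ^ 2) μ) (hb : Integrable (fun x => b x ^ 2) μ)
    (hab : Integrable (fun x => a x * b x) μ) (hA : 0 ≤ A) (hB : 0 < B)
    (h1 : ∫ x, a x ^ 2 ∂μ ≤ A ^ 2) (h2 : ∫ x, b x ^ 2 ∂μ ≤ B ^ 2) :
    ∫ x, a x * b x ∂μ ≤ A * B := by
  refine le_of_forall_pos_le_add fun ε hε => ?_
  obtain ⟨A', hA'⟩ : ∃ A', A' = A + ε / B := ⟨_, rfl⟩
  have hp : 0 < A' := by rw [hA']; positivity
  have h3 : ∫ x, a x * b x ∂μ ≤ ∫ x, (B / (2 * A') * a x ^ 2 + A' / (2 * B) * b x ^ 2) ∂μ := by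
    refine integral_mono hab ((ha.const_mul _).add (hb.const_mul _)) fun x => ?_
    have h4 : B / (2 * A') * a x ^ 2 + A' / (2 * B) * b x ^ 2 - a x * b x =
        (B * a x - A' * b x) ^ 2 / (2 * A' * B) := by
      field_simp
      ring
    have h5 : 0 ≤ (B * a x - A' * b x) ^ 2 / (2 * A' * B) := by positivity
    linarith
  rw [integral_add (ha.const_mul _) (hb.const_mul _), integral_const_mul, integral_const_mul] at h3
  have h4 : B / (2 * A') * ∫ x, a x ^ 2 ∂μ ≤ B / (2 * A') * A' ^ 2 := by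
    refine mul_le_mul_of_nonneg_left (h1.trans ?_) (by positivity)
    refine pow_le_pow_left₀ hA ?_ 2
    rw [hA']
    have : 0 ≤ ε / B := by positivity
    linarith
  have h5 : A' / (2 * B) * ∫ x, b x ^ 2 ∂μ ≤ A' / (2 * B) * B ^ 2 :=
    mul_le_mul_of_nonneg_left h2 (by positivity)
  have h6 : B / (2 * A') * A' ^ 2 + A' / (2 * B) * B ^ 2 = A' * B := by
    field_simp
    ring
  have h7 : A' * B = A * B + ε := by
    rw [hA']
    field_simp
  linarith

theorem mea' (ste : SteStmt) : MeaStmt := by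
  intro d M _ v z ζ δ hz0 hζ hδ hD
  have hprob := prob (d := d) (M := M) v
  have hmean := mean_eq ste v hz0 (d := d) (M := M)
  obtain ⟨g, hg⟩ : ∃ g, g = gb d M v z := ⟨_, rfl⟩
  rw [← hg] at hζ hD ⊢
  -- positivity of the imaginary part
  have hgim : 0 ≤ g.im := by
    have h1 : g.im = ∫ V, (rs V z 0 0).im ∂(gau d M v) := by
      rw [hg]
      unfold gb
      exact (integral_im (inte v hz0 0 0)).symm
    rw [h1]
    refine integral_nonneg fun V => ?_
    have h2 := H76.row V hz0 0
    have h3 : 0 ≤ (rs V z 0 0).im / z.im := by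
      rw [← h2]
      exact Finset.sum_nonneg fun _ _ => by positivity
    have h4 := mul_nonneg h3 hz0.le
    rwa [div_mul_cancel₀ _ hz0.ne'] at h4
  have hζim : 0 < ζ.im := by
    rw [hζ]
    have h1 : (z + (v : ℂ) * g).im = z.im + v * g.im := by
      simp [Complex.add_im, Complex.mul_im]
    rw [h1]
    have : 0 ≤ (v : ℝ) * g.im := mul_nonneg v.2 hgim
    linarith
  have hne : ∀ p : Tor d M, (es p : ℂ) - ζ ≠ 0 := by
    intro p h
    have := congrArg Complex.im h
    simp only [Complex.sub_im, Complex.ofReal_im, Complex.zero_im, zero_sub] at this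
    linarith
  obtain ⟨m, hm⟩ : ∃ m : Tor d M → Tor d M → ℂ, m = fun x y => ∫ V, rs V z x y ∂(gau d M v) :=
    ⟨_, rfl⟩
  have hm' : ∀ x y, ∫ V, rs V z x y ∂(gau d M v) = m x y := by
    intro x y
    rw [hm]
  have hmt : ∀ a x y, m (a + x) (a + y) = m x y := by
    intro a x y
    rw [← hm', ← hm', mean_tr v hz0]
  obtain ⟨lam, hlam⟩ : ∃ lam : Tor d M → ℂ, lam = fun p => ∑ y, ec p y * m 0 y := ⟨_, rfl⟩
  obtain ⟨s, hs⟩ : ∃ s : Tor d M → ℂ, s = fun p =>
      (v : ℂ) * ∫ V, (rs V z 0 0 - g) * ge V z p 0 ∂(gau d M v) := ⟨_, rfl⟩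
  have iG : ∀ p, Integrable (fun V : Tor d M → ℝ => ge V z p 0) (gau d M v) := by
    intro p
    unfold ge
    exact integrable_finsetSum _ fun y _ => (inte v hz0 0 y).mul_const _
  have iGG : ∀ p, Integrable (fun V : Tor d M → ℝ => rs V z 0 0 * ge V z p 0) (gau d M v) := by
    intro p
    have e : (fun V : Tor d M → ℝ => rs V z 0 0 * ge V z p 0) =
        fun V => ∑ y, rs V z 0 0 * rs V z 0 y * ec p y := by
      funext V
      unfold ge
      rw [Finset.mul_sum]
      exact Finset.sum_congr rfl fun y _ => by ring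
    rw [e]
    exact integrable_finsetSum _ fun y _ => (inte2 v hz0 0 0 0 y).mul_const _
  -- the equation for the symbol
  have key : ∀ p, ((es p : ℂ) - ζ) * lam p = 1 + s p := by
    intro p
    have e0 : ∀ w, ∑ y, ec p y * m w y = ec p w * lam p := by
      intro w
      rw [hlam, Finset.mul_sum, ← Equiv.sum_comp (Equiv.addLeft w) (fun y => ec p y * m w y)]
      refine Finset.sum_congr rfl fun y _ => ?_
      have h := hmt w 0 y
      rw [add_zero] at h
      rw [Equiv.coe_addLeft, ec_add, h]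
      ring
    have e1 : ∑ y, ec p y * ((∑ w, ((adj d M 0 w : ℝ) : ℂ) * m w y) - z * m 0 y) =
        ((es p : ℂ) - z) * lam p := by
      have e2 : ∑ y, ec p y * (∑ w, ((adj d M 0 w : ℝ) : ℂ) * m w y) =
          ∑ w, ((adj d M 0 w : ℝ) : ℂ) * (ec p w * lam p) := by
        simp only [Finset.mul_sum]
        rw [Finset.sum_comm]
        refine Finset.sum_congr rfl fun w _ => ?_
        rw [← e0 w, Finset.mul_sum]
        exact Finset.sum_congr rfl fun y _ => by ring
      have e3 : ∑ w, ((adj d M 0 w : ℝ) : ℂ) * (ec p w * lam p) = (es p : ℂ) * lam p := by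
        have h := H76.eig ftb p (0 : Tor d M)
        rw [ec_zero, mul_one] at h
        rw [← h, Finset.sum_mul]
        exact Finset.sum_congr rfl fun w _ => by ring
      have e4 : ∑ y, ec p y * (z * m 0 y) = z * lam p := by
        rw [hlam, Finset.mul_sum]
        exact Finset.sum_congr rfl fun y _ => by ring
      simp only [mul_sub, Finset.sum_sub_distrib]
      rw [e2, e3, e4]
      ring
    have e5 : ∑ y, ec p y * ((∑ w, ((adj d M 0 w : ℝ) : ℂ) * m w y) - z * m 0 y) =
        1 + v * ∫ V, rs V z 0 0 * ge V z p 0 ∂(gau d M v) := by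
      have e6 : ∀ y, (∑ w, ((adj d M 0 w : ℝ) : ℂ) * m w y) - z * m 0 y =
          (if (0 : Tor d M) = y then 1 else 0) +
            v * ∫ V, rs V z 0 0 * rs V z 0 y ∂(gau d M v) := by
        intro y
        have h := hmean 0 y
        simp only [hm'] at h
        exact h
      simp only [e6, mul_add, Finset.sum_add_distrib]
      have e7 : ∑ y, ec p y * (if (0 : Tor d M) = y then (1 : ℂ) else 0) = 1 := by
        simp only [mul_ite, mul_one, mul_zero, Finset.sum_ite_eq, Finset.mem_univ, if_true]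
        exact ec_zero p
      have e8 : ∑ y, ec p y * ((v : ℂ) * ∫ V, rs V z 0 0 * rs V z 0 y ∂(gau d M v)) =
          v * ∫ V, rs V z 0 0 * ge V z p 0 ∂(gau d M v) := by
        have e9 : ∫ V, rs V z 0 0 * ge V z p 0 ∂(gau d M v) =
            ∑ y, ec p y * ∫ V, rs V z 0 0 * rs V z 0 y ∂(gau d M v) := by
          have e : (fun V : Tor d M → ℝ => rs V z 0 0 * ge V z p 0) =
              fun V => ∑ y, ec p y * (rs V z 0 0 * rs V z 0 y) := by
            funext V
            unfold ge
            rw [Finset.mul_sum]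
            exact Finset.sum_congr rfl fun y _ => by ring
          rw [e, integral_finsetSum _ fun y _ => (inte2 v hz0 0 0 0 y).const_mul _]
          simp only [integral_const_mul]
        rw [e9, Finset.mul_sum]
        exact Finset.sum_congr rfl fun y _ => by ring
      rw [e7, e8]
    have e10 : s p = v * ∫ V, rs V z 0 0 * ge V z p 0 ∂(gau d M v) - v * (g * lam p) := by
      have e11 : ∫ V, (rs V z 0 0 - g) * ge V z p 0 ∂(gau d M v) =
          (∫ V, rs V z 0 0 * ge V z p 0 ∂(gau d M v)) - g * lam p := by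
        have e12 : g * lam p = ∫ V, g * ge V z p 0 ∂(gau d M v) := by
          rw [integral_const_mul]
          congr 1
          unfold ge
          rw [integral_finsetSum _ fun y _ => (inte v hz0 0 y).mul_const _, hlam]
          refine Finset.sum_congr rfl fun y _ => ?_
          rw [integral_mul_const, hm']
          ring
        rw [e12, ← integral_sub (iGG p) ((iG p).const_mul _)]
        refine integral_congr_ae (Eventually.of_forall fun V => ?_)
        simp only
        ring
      rw [hs]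
      simp only
      rw [e11]
      ring
    rw [e1] at e5
    rw [e10, hζ]
    linear_combination e5
  refine ⟨hgim, s, ?_, ?_⟩
  · intro p
    rw [hs]
    simp only
    rw [norm_mul]
    have hv : ‖(v : ℂ)‖ = v := by
      rw [Complex.norm_real]
      exact abs_of_nonneg v.2
    rw [hv, mul_div_assoc]
    refine mul_le_mul_of_nonneg_left ?_ v.2
    refine (norm_integral_le_integral_norm _).trans ?_
    simp only [norm_mul]
    have i1 : Integrable (fun V : Tor d M → ℝ => ‖rs V z 0 0 - g‖ ^ 2) (gau d M v) := by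
      refine (integrable_const ((1 / z.im + ‖g‖) ^ 2)).mono'
        ((((H76.cont z hz0.ne' 0 0).sub continuous_const).norm.pow 2)).aestronglyMeasurable ?_
      refine Eventually.of_forall fun V => ?_
      rw [norm_pow, norm_norm]
      exact pow_le_pow_left₀ (norm_nonneg _) ((norm_sub_le _ _).trans
        (add_le_add (H76.entry_bd V hz0 0 0) le_rfl)) 2
    have i2 : Integrable (fun V : Tor d M → ℝ => ‖rs V z 0 0 - g‖ * ‖ge V z p 0‖) (gau d M v) := by
      have h := ((iGG p).sub ((iG p).const_mul g)).norm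
      refine h.congr (Eventually.of_forall fun V => ?_)
      simp only [Pi.sub_apply]
      rw [← norm_mul, sub_mul]
    have h := cs (gau d M v) (fun V => ‖rs V z 0 0 - g‖) (fun V => ‖ge V z p 0‖) δ (1 / z.im)
      i1 (ge_sq_int v hz0 p 0) i2 hδ (by positivity) hD (by
        rw [div_pow, one_pow]
        exact ge_mean v hz0 p)
    rw [mul_one_div] at h
    exact h
  · intro x y
    rw [hm']
    have h1 := Pool.Agent.LE.IR.H54.inversion (fun u : Tor d M => m 0 (-u)) (x - y)
    have h2 : m 0 (-(x - y)) = m x y := by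
      have h := hmt x 0 (-(x - y))
      rw [add_zero] at h
      rw [← h]
      congr 1
      abel
    have h3 : ∀ p, ft (fun u : Tor d M => m 0 (-u)) p = lam p := by
      intro p
      unfold ft
      rw [hlam]
      simp only
      rw [← Equiv.sum_comp (Equiv.neg (Tor d M)) (fun y => ec p y * m 0 y)]
      refine Finset.sum_congr rfl fun u _ => ?_
      rw [Equiv.neg_apply, ec_neg]
    rw [h2] at h1
    rw [h1]
    congr 1
    refine Finset.sum_congr rfl fun p _ => ?_
    rw [h3, ← key p, mul_div_cancel_left₀ _ (hne p)]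

/-- MEA -/
theorem mea : MeaStmt := mea' H65.ste

end Pool.Agent.LE.QD.H31
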